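import Pool.Agent.AT8.Stmts2
import Pool.Agent.Helper49_AT3.BRG
import Pool.Agent.Helper62_AT3.CO2

/-!
# Squad AT8, row DPW: conjugation with the inertial group, and powers, for the data
-/

open scoped BigOperators

noncomputable section

namespace Pool.Agent.PP.T8.H8

open Pool.Agent.Helper51_AWC Pool.Agent.Helper79_WRA Pool.Agent.PP Pool.Agent.PP.KF
open Pool.Agent.PP.K9 Pool.Agent.PP.K9.H97 Pool.Agent.PP.H75 Pool.Agent.PP.T3 Pool.Agent.PP.T2
open Pool.Agent.PP.T8

attribute [local instance] Ideal.Quotient.field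

section tools

variable {G : Type} [Group G]

/-- the normaliser of `V` normalises the centraliser -/
theorem conj_cent {V : Subgroup G} {n x : G} (hn : n ∈ Subgroup.normalizer (V : Set G))
    (hx : x ∈ Subgroup.centralizer (V : Set G)) :
    n * x * n⁻¹ ∈ Subgroup.centralizer (V : Set G) := by
  rw [Subgroup.mem_centralizer_iff] at hx ⊢
  intro q hq
  have h1 : n⁻¹ * q * n ∈ V := by
    have h2 := (Subgroup.mem_normalizer_iff.1 (inv_mem hn) q).1 hq
    rwa [inv_inv] at h2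
  have h2 := hx _ h1
  calc q * (n * x * n⁻¹) = n * ((n⁻¹ * q * n) * x) * n⁻¹ := by group
    _ = n * (x * (n⁻¹ * q * n)) * n⁻¹ := by rw [h2]
    _ = (n * x * n⁻¹) * q := by group

theorem cent_conj_iff {V : Subgroup G} {n x : G} (hn : n ∈ Subgroup.normalizer (V : Set G)) :
    n⁻¹ * x * n ∈ Subgroup.centralizer (V : Set G) ↔ x ∈ Subgroup.centralizer (V : Set G) := by
  constructor
  · intro h
    have h1 := conj_cent hn h
    have e : n * (n⁻¹ * x * n) * n⁻¹ = x := by group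
    rwa [e] at h1
  · intro h
    have h1 := conj_cent (inv_mem hn) h
    rwa [inv_inv] at h1

theorem br_cj_norm {F : Type} [Field F] [Finite G] {V : Subgroup G} {t : G}
    (ht : t ∈ Subgroup.normalizer (V : Set G)) (b : G → F) :
    br V (cj t b) = cj t (br V b) := by
  funext x
  change br V (cj t b) x = br V b (t⁻¹ * x * t)
  by_cases hx : x ∈ Subgroup.centralizer (V : Set G)
  · rw [br_in _ hx, br_in _ ((cent_conj_iff ht).2 hx)]
    rfl
  · rw [br_out _ hx, br_out _ (fun h => hx ((cent_conj_iff ht).1 h))]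

/-- the data of the conjugate element -/
theorem lc_cj {F : Type} [Field F] [Finite G] {e : G → F} (he : IsCl e) {V : Subgroup G}
    {γ : G → F} {u u' t : G} {b : G → F} (ht : t ∈ Tg V γ) (h : t * u * t⁻¹ = u')
    (hb : Lc e V γ u b) : Lc e V γ u' (cj t b) := by
  refine ⟨T3.H49.bx_cj h hb.blk, ?_, ?_⟩
  · have h1 := H20.mulF_equiv (T3.H49.cuEquiv h) (fun s : Cu u => e s) (fun s : Cu u => b s)
    rw [hb.und] at h1
    have h2 : (fun s : Cu u' => (fun s : Cu u => e s) (T3.H49.cuEquiv h s)) =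
        fun s : Cu u' => e s := by
      funext s
      change e (t⁻¹ * (s : G) * t) = e s
      have := he (s : G) t⁻¹
      rwa [inv_inv] at this
    rw [h2] at h1
    exact h1
  · have hγ : cj t γ = γ := by
      rw [cj_eq_iff]
      exact ht.2
    rw [br_cj_norm ht.1]
    have h1 := congrArg (cj t) hb.gam
    rw [cj_mulF, hγ] at h1
    exact h1

theorem nonempty_of_blk {H : Type} [Group H] [Finite H] {M : Ideal (integralClosure ℤ ℂ)}
    [M.IsMaximal] {b : H → FF M} (hb : IsBlk b) : (IrrE M b).Nonempty := by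
  by_contra hem
  rw [Set.not_nonempty_iff_eq_empty] at hem
  apply hb.2.1
  funext g
  obtain ⟨h1, -, -⟩ := KF.H25.idm M H b hb.1
  rw [← (h1 g).2]
  have h2 : eh M b g = 0 := by
    unfold eh
    rw [hem]
    simp
  rw [h2]
  exact rr_zero

theorem dg_unique {M : Ideal (integralClosure ℤ ℂ)} [M.IsMaximal] {H : Type} {b : H → FF M}
    [Group H] {d d' : ℕ} (hne : (IrrE M b).Nonempty) (h1 : Dg M b d) (h2 : Dg M b d') :
    d = d' := by
  obtain ⟨χ, hχ⟩ := hne
  have h := (h1.2 χ hχ).symm.trans (h2.2 χ hχ)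
  exact_mod_cast h

theorem dg_cj {M : Ideal (integralClosure ℤ ℂ)} [M.IsMaximal] [Finite G] {u u' t : G}
    (h : t * u * t⁻¹ = u') {b : G → FF M} (hb : IsCl (fun s : Cu u => b s)) {d : ℕ}
    (hd : Dg M (fun s : Cu u => b s) d) : Dg M (fun s : Cu u' => cj t b s) d := by
  classical
  refine ⟨hd.1, ?_⟩
  intro κ hκ
  have h1 := (K9.H3.psi M (Cu u) (Cu u') ((T3.H62.cjE h : Cu u ≃* Cu u') : Cu u →* Cu u')
    (T3.H62.cjE h).surjective (fun s : Cu u => b s) hb).1
  have hp : H75.push ((T3.H62.cjE h : Cu u ≃* Cu u') : Cu u →* Cu u') (fun s : Cu u => b s) =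
      fun s : Cu u' => cj t b s := by
    funext y
    unfold H75.push
    rw [finsum_eq_single _ ((T3.H62.cjE h).symm y)]
    · rw [finsum_eq_if]
      have : ((T3.H62.cjE h : Cu u ≃* Cu u') : Cu u →* Cu u') ((T3.H62.cjE h).symm y) = y :=
        (T3.H62.cjE h).apply_symm_apply y
      rw [if_pos this]
      rfl
    · intro x hx
      rw [finsum_eq_if, if_neg]
      intro h'
      apply hx
      rw [← h']
      exact ((T3.H62.cjE h).symm_apply_apply x).symm
  rw [hp] at h1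
  rw [h1] at hκ
  have h2 := hd.2 _ hκ.2
  rw [← h2]
  change κ 1 = κ ((T3.H62.cjE h) 1)
  rw [map_one]

theorem gv_cj {M : Ideal (integralClosure ℤ ℂ)} [M.IsMaximal] [Finite G] {u u' t : G}
    (h : t * u * t⁻¹ = u') {b : G → FF M} (hb : IsCl (fun s : Cu u => b s)) {χ : G → ℂ}
    (hχ : ∀ x y, χ (y * x * y⁻¹) = χ x) :
    gv M (Cu u') u' (cj t b) χ = gv M (Cu u) u b χ := by
  change (∑ᶠ c : Cu u', eh M (fun s : Cu u' => cj t b s) c * χ (u' * c)) =
    ∑ᶠ c : Cu u, eh M (fun s : Cu u => b s) c * χ (u * c)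
  rw [← finsum_comp_equiv (T3.H62.cjE h).toEquiv]
  refine finsum_congr fun c => ?_
  have h1 := T3.H62.eh_equiv (M := M) (T3.H62.cjE h) hb c
  have h2 : (fun y : Cu u' => (fun s : Cu u => b s) ((T3.H62.cjE h).symm y)) =
      fun s : Cu u' => cj t b s := rfl
  rw [h2] at h1
  have h3 : χ (u' * (((T3.H62.cjE h).toEquiv c : Cu u') : G)) = χ (u * c) := by
    have e : u' * (((T3.H62.cjE h).toEquiv c : Cu u') : G) = t * (u * c) * t⁻¹ := by
      change u' * (t * (c : G) * t⁻¹) = _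
      rw [← h]
      group
    rw [e, hχ]
  rw [h3]
  change eh M (fun s : Cu u' => cj t b s) ((T3.H62.cjE h) c) * _ = _
  rw [h1]

end tools

/-- row DPW -/
theorem dpw (hLOC : T3.LocStmt) (hLPW : T3.LpwStmt) : DpwStmt := by
  intro ℓ _ M _ hM hℓ2 G _ _ e V γ b d c ε hD
  have hp : ℓ.Prime := Fact.out
  have hF : GoodF ℓ (FF M) := H50.fld ℓ Fact.out M hM
  have hL := hD.ld
  -- signs
  have hsgn : ∀ a a' : ℤ, (a = 1 ∨ a = -1) → (a' = 1 ∨ a' = -1) → (a : FF M) = (a' : FF M) →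
      a = a' := by
    intro a a' ha ha' h
    by_contra hne
    have h2 : (2 : FF M) = 0 := by
      rcases ha with rfl | rfl <;> rcases ha' with rfl | rfl
      · exact absurd rfl hne
      · push_cast at h
        linear_combination h
      · push_cast at h
        linear_combination -h
      · exact absurd rfl hne
    have h3 : (ℓ : FF M) = 0 := by
      have := hF.char
      exact CharP.cast_eq_zero (FF M) ℓ
    have hodd : Odd ℓ := hp.odd_of_ne_two hℓ2
    obtain ⟨k, hk⟩ := hodd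
    rw [hk] at h3
    push_cast at h3
    rw [h2, zero_mul, zero_add] at h3
    exact one_ne_zero h3
  have hcj : ∀ t ∈ Tg V γ, ∀ u, Rg V γ u → Rg V γ (t * u * t⁻¹) ∧
      ε (t * u * t⁻¹) = ε u ∧ ∀ χ ∈ Irr G, vv M b d (t * u * t⁻¹) χ = vv M b d u χ := by
    intro t ht u hu
    have hV : t * u * t⁻¹ ∈ V := (Subgroup.mem_normalizer_iff.1 ht.1 u).1 hu.1
    have hR : Rg V γ (t * u * t⁻¹) := by
      refine ⟨hV, ?_, ?_⟩
      · intro h
        apply hu.2.1
        have : u = t⁻¹ * (t * u * t⁻¹) * t := by group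
        rw [this, h]
        group
      · intro s hs
        have h1 : t⁻¹ * s * t ∈ Tg V γ ⊓ Cu u := by
          refine ⟨mul_mem (mul_mem ((Tg V γ).inv_mem ht) hs.1) ht, ?_⟩
          exact (T3.H49.cu_conj rfl s).2 hs.2
        exact (cent_conj_iff ht.1).1 (hu.2.2 h1)
    have hlc := lc_cj hL.blk.1.1 ht rfl (hD.lc u hu)
    have hb : b (t * u * t⁻¹) = cj t (b u) :=
      (hLOC ℓ (FF M) hF G e V γ hL _ hV).2 _ _ (hD.lc _ hR) hlc
    have hbc : IsCl (fun s : Cu u => b u s) := (hD.lc u hu).blk.blk.1.1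
    have hd : d (t * u * t⁻¹) = d u := by
      have h1 := hD.dg _ hR
      rw [hb] at h1
      have h2 := dg_cj (rfl : t * u * t⁻¹ = t * u * t⁻¹) hbc (hD.dg u hu)
      exact dg_unique (nonempty_of_blk hlc.blk.blk) h1 h2
    refine ⟨hR, ?_, ?_⟩
    · apply hsgn _ _ (hD.sg _ hR) (hD.sg u hu)
      rw [← (hD.cg _ hR).2, ← (hD.cg u hu).2, hd,
        Nat.card_congr (T3.H62.cjE (rfl : t * u * t⁻¹ = t * u * t⁻¹)).toEquiv]
    · intro χ hχ
      unfold vv
      rw [hb, hd, gv_cj rfl hbc (fun x y => irr_conj hχ x y)]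
  have hpw : ∀ u, Rg V γ u → ∀ j : ℕ, ¬ ℓ ∣ j → Rg V γ (u ^ j) ∧ b (u ^ j) = b u ∧
      d (u ^ j) = d u ∧ ε (u ^ j) = ε u := by
    intro u hu j hj
    obtain ⟨hC, hlc⟩ := hLPW ℓ (FF M) hF G e V γ hL u hu.1 (b u) (hD.lc u hu) j hj
    have hV : u ^ j ∈ V := V.pow_mem hu.1 j
    have hR : Rg V γ (u ^ j) := by
      refine ⟨hV, ?_, ?_⟩
      · intro h
        apply hu.2.1
        obtain ⟨n, hn⟩ := hL.tp.pg ⟨u, hu.1⟩
        have hn' : u ^ ℓ ^ n = 1 := congrArg (fun v : V => (v : G)) hn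
        have h1 : orderOf u ∣ Nat.gcd (ℓ ^ n) j :=
          Nat.dvd_gcd (orderOf_dvd_of_pow_eq_one hn') (orderOf_dvd_of_pow_eq_one h)
        have h2 : Nat.gcd (ℓ ^ n) j = 1 :=
          Nat.Coprime.pow_left n ((Nat.Prime.coprime_iff_not_dvd hp).2 hj)
        rw [h2, Nat.dvd_one] at h1
        exact orderOf_eq_one_iff.1 h1
      · rw [hC]
        exact hu.2.2
    have hb : b (u ^ j) = b u :=
      (hLOC ℓ (FF M) hF G e V γ hL _ hV).2 _ _ (hD.lc _ hR) hlc
    have hd : d (u ^ j) = d u := by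
      have h1 := hD.dg _ hR
      rw [hb] at h1
      have h2 : Dg M (fun s : Cu (u ^ j) => b u s) (d u) := by
        rw [hC]
        exact hD.dg u hu
      exact dg_unique (nonempty_of_blk hlc.blk.blk) h1 h2
    refine ⟨hR, hb, hd, ?_⟩
    apply hsgn _ _ (hD.sg _ hR) (hD.sg u hu)
    rw [← (hD.cg _ hR).2, ← (hD.cg u hu).2, hd, hC]
  refine ⟨hcj, hpw, ?_⟩
  intro v hv j hj
  constructor
  · intro h
    refine ⟨hv, ?_, ?_⟩
    · rintro rfl
      exact h.2.1 (one_pow j)
    · intro s hs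
      apply h.2.2
      refine ⟨hs.1, ?_⟩
      have h1 := Subgroup.mem_centralizer_singleton_iff.1 hs.2
      exact Subgroup.mem_centralizer_singleton_iff.2 (Commute.pow_right h1 j)
  · intro h
    exact (hpw v h j hj).1

end Pool.Agent.PP.T8.H8
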