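import Pool.Agent.AT8.Stmts2

/-!
# Squad AT8, row DAT: existence of the data of the regular elements
-/

open scoped BigOperators

noncomputable section

namespace Pool.Agent.PP.T8.H8

open Pool.Agent.Helper51_AWC Pool.Agent.Helper79_WRA Pool.Agent.PP Pool.Agent.PP.KF
open Pool.Agent.PP.K9 Pool.Agent.PP.K9.H97 Pool.Agent.PP.H75 Pool.Agent.PP.T3 Pool.Agent.PP.T2
open Pool.Agent.PP.T8

attribute [local instance] Ideal.Quotient.field

/-- row DAT -/
theorem dat (hRGL : T3.RglStmt) (hDGC : T3.DgcStmt) (hLSB : T3.LsbStmt) (hNIT : T3.NitStmt) :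
    DatStmt := by
  classical
  intro ℓ _ M _ hM G _ _ e V γ h
  obtain ⟨c, hc⟩ := hDGC ℓ M hM G e V γ h
  have key : ∀ u : G, ∃ (b : G → FF M) (d : ℕ) (ε : ℤ), Rg V γ u → Lc e V γ u b ∧
      Dg M (fun t : Cu u => b t) d ∧ (ε = 1 ∨ ε = -1) ∧
      ((Nat.card (Cu u) * c : ℂ) /
        (Nat.card (Subgroup.centralizer (V : Set G)) * d)) ∈ RM M ∧
      rr M ((Nat.card (Cu u) * c : ℂ) /
        (Nat.card (Subgroup.centralizer (V : Set G)) * d)) = (ε : FF M) := by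
    intro u
    by_cases hu : Rg V γ u
    · obtain ⟨b, d, hb, hd, -, hix⟩ := hRGL ℓ M hM G e V γ h u hu
      obtain ⟨hld, -, -, hcard, hdg⟩ := hLSB ℓ M hM G e V γ h u hu.1 b hb
      obtain ⟨ε, hε, h1, h2⟩ := hNIT ℓ M hM (Cu u) (fun t : Cu u => b t) (V.subgroupOf (Cu u))
        (fun t : Cu u => γ t) hld hix d c hd (hdg c hc)
      rw [hcard] at h1 h2
      exact ⟨b, d, ε, fun _ => ⟨hb, hd, hε, h1, h2⟩⟩
    · exact ⟨0, 0, 0, fun h => absurd h hu⟩
  choose b d ε hk using key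
  exact ⟨b, d, c, ε, h, hc, fun u hu => (hk u hu).1, fun u hu => (hk u hu).2.1,
    fun u hu => (hk u hu).2.2.1, fun u hu => (hk u hu).2.2.2⟩

end Pool.Agent.PP.T8.H8
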