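import Pool.Agent.AT8.Stmts2
import Pool.Agent.Helper49_AT3.BRG
import Pool.Agent.Helper62_AT3.CO2

/-!
# Squad AT8, row ORI: orthogonality for all the elements of `V`
-/

open scoped BigOperators

noncomputable section

namespace Pool.Agent.PP.T8.H8

open Pool.Agent.Helper51_AWC Pool.Agent.Helper79_WRA Pool.Agent.PP Pool.Agent.PP.KF
open Pool.Agent.PP.K9 Pool.Agent.PP.K9.H97 Pool.Agent.PP.H75 Pool.Agent.PP.T3 Pool.Agent.PP.T2
open Pool.Agent.PP.T8

attribute [local instance] Ideal.Quotient.field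

section core

variable {G : Type} [Group G] [Finite G]

/-- the average over the centraliser -/
def avj (z : G) (j : G → ℂ) : G → ℂ :=
  fun s => (Nat.card (Cu z) : ℂ)⁻¹ * ∑ᶠ x : Cu z, j (x * s * (x : G)⁻¹)

omit [Finite G] in
theorem mem_conj_Cu {z : G} (x : Cu z) (s : G) : (x : G) * s * (x : G)⁻¹ ∈ Cu z ↔ s ∈ Cu z := by
  constructor
  · intro h
    have h1 := mul_mem (mul_mem (inv_mem x.2) h) x.2
    have e : (x : G)⁻¹ * ((x : G) * s * (x : G)⁻¹) * x = s := by group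
    rwa [e] at h1
  · intro h
    exact mul_mem (mul_mem x.2 h) (inv_mem x.2)

omit [Finite G] in
theorem avj_supp {z : G} {j : G → ℂ} (hj : ∀ g, g ∉ Cu z → j g = 0) (s : G) (hs : s ∉ Cu z) :
    avj z j s = 0 := by
  unfold avj
  rw [finsum_eq_zero_of_forall_eq_zero, mul_zero]
  intro x
  exact hj _ (fun h => hs ((mem_conj_Cu x s).1 h))

/-- the average has the same values at the class functions -/
theorem avj_val {z : G} {j : G → ℂ} {χ : G → ℂ} (hχ : ∀ x y, χ (y * x * y⁻¹) = χ x) :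
    ∑ᶠ g, avj z j g * χ (z * g) = ∑ᶠ g, j g * χ (z * g) := by
  classical
  have := Fintype.ofFinite G
  have := Fintype.ofFinite (Cu z)
  have hc : (Nat.card (Cu z) : ℂ) ≠ 0 := by exact_mod_cast Nat.card_pos.ne'
  rw [finsum_eq_sum_of_fintype, finsum_eq_sum_of_fintype]
  unfold avj
  have h1 : ∀ g : G, (Nat.card (Cu z) : ℂ)⁻¹ * (∑ᶠ x : Cu z, j (x * g * (x : G)⁻¹)) * χ (z * g) =
      (Nat.card (Cu z) : ℂ)⁻¹ * ∑ x : Cu z, j (x * g * (x : G)⁻¹) * χ (z * g) := by
    intro g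
    rw [finsum_eq_sum_of_fintype, mul_assoc, Finset.sum_mul]
  rw [Finset.sum_congr rfl (fun g _ => h1 g), ← Finset.mul_sum, Finset.sum_comm]
  have h2 : ∀ x : Cu z, ∑ g : G, j (x * g * (x : G)⁻¹) * χ (z * g) = ∑ g : G, j g * χ (z * g) := by
    intro x
    rw [← Equiv.sum_comp (MulAut.conj (x : G)).toEquiv (fun g => j g * χ (z * g))]
    refine Finset.sum_congr rfl fun g _ => ?_
    change _ = j (x * g * (x : G)⁻¹) * χ (z * (x * g * (x : G)⁻¹))
    have e : z * ((x : G) * g * (x : G)⁻¹) = x * (z * g) * (x : G)⁻¹ := by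
      have h3 : (x : G) * z = z * x := Subgroup.mem_centralizer_singleton_iff.1 x.2
      calc z * ((x : G) * g * (x : G)⁻¹) = (z * x) * g * (x : G)⁻¹ := by group
        _ = (x * z) * g * (x : G)⁻¹ := by rw [h3]
        _ = _ := by group
    rw [e, hχ]
  rw [Finset.sum_congr rfl (fun x _ => h2 x), Finset.sum_const, Finset.card_univ,
    ← Nat.card_eq_fintype_card, nsmul_eq_mul, ← mul_assoc, inv_mul_cancel₀ hc, one_mul]

/-- the average vanishes at the singular elements -/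
theorem avj_sing {ℓ : ℕ} {z : G} {j : G → ℂ}
    (hprj : ∀ th : Cu z → ℂ, (∀ x y, th (y * x * y⁻¹) = th x) → (∀ x, Reg ℓ x → th x = 0) →
      ∑ᶠ h : Cu z, j h * th h = 0) (s : Cu z) (hs : ¬ Reg ℓ s) : avj z j s = 0 := by
  classical
  have := Fintype.ofFinite (Cu z)
  let th : Cu z → ℂ := fun h => ∑ x : Cu z, if x * s * x⁻¹ = h then 1 else 0
  have h1 : ∀ x y, th (y * x * y⁻¹) = th x := by
    intro x y
    change (∑ w : Cu z, if w * s * w⁻¹ = y * x * y⁻¹ then (1 : ℂ) else 0) =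
      ∑ w : Cu z, if w * s * w⁻¹ = x then (1 : ℂ) else 0
    rw [← Equiv.sum_comp (Equiv.mulLeft y)]
    refine Finset.sum_congr rfl fun w _ => ?_
    refine if_congr ?_ rfl rfl
    change y * w * s * (y * w)⁻¹ = y * x * y⁻¹ ↔ w * s * w⁻¹ = x
    have e : y * w * s * (y * w)⁻¹ = y * (w * s * w⁻¹) * y⁻¹ := by group
    rw [e]
    constructor
    · intro h
      exact mul_left_cancel (mul_right_cancel h)
    · rintro rfl
      rfl
  have h2 : ∀ x, Reg ℓ x → th x = 0 := by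
    intro x hx
    change (∑ w : Cu z, if w * s * w⁻¹ = x then (1 : ℂ) else 0) = 0
    refine Finset.sum_eq_zero fun w _ => ?_
    rw [if_neg]
    rintro rfl
    apply hs
    unfold Reg at hx ⊢
    have e : orderOf (w * s * w⁻¹) = orderOf s :=
      (MulAut.conj w).orderOf_eq s
    rwa [e] at hx
  have h3 := hprj th h1 h2
  rw [finsum_eq_sum_of_fintype] at h3
  have h4 : ∑ h : Cu z, j h * th h = ∑ x : Cu z, j ((x : G) * s * (x : G)⁻¹) := by
    simp only [th, Finset.mul_sum]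
    rw [Finset.sum_comm]
    refine Finset.sum_congr rfl fun x _ => ?_
    rw [Finset.sum_eq_single (x * s * x⁻¹)]
    · rw [if_pos rfl, mul_one]
      rfl
    · intro h _ hne
      rw [if_neg (fun h' => hne h'.symm), mul_zero]
    · intro h
      exact absurd (Finset.mem_univ _) h
  unfold avj
  rw [finsum_eq_sum_of_fintype, ← h4, h3, mul_zero]

/-- the average of `j` is under the same idempotent -/
theorem avj_mul {z : G} {j B : G → ℂ} (hB : ∀ x ∈ Cu z, ∀ s, B (x * s * x⁻¹) = B s)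
    (hj : mulF j B = j) : mulF (avj z j) B = avj z j := by
  classical
  have := Fintype.ofFinite G
  have := Fintype.ofFinite (Cu z)
  funext s
  unfold mulF
  rw [finsum_eq_sum_of_fintype]
  unfold avj
  simp only [finsum_eq_sum_of_fintype]
  have h1 : ∀ t : G, (Nat.card (Cu z) : ℂ)⁻¹ * (∑ x : Cu z, j (x * t * (x : G)⁻¹)) *
      B (t⁻¹ * s) = (Nat.card (Cu z) : ℂ)⁻¹ * ∑ x : Cu z, j (x * t * (x : G)⁻¹) * B (t⁻¹ * s) := by
    intro t
    rw [mul_assoc, Finset.sum_mul]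
  rw [Finset.sum_congr rfl (fun t _ => h1 t), ← Finset.mul_sum, Finset.sum_comm]
  congr 1
  refine Finset.sum_congr rfl fun x _ => ?_
  have h2 := congrFun hj ((x : G) * s * (x : G)⁻¹)
  unfold mulF at h2
  rw [finsum_eq_sum_of_fintype] at h2
  rw [← h2, ← Equiv.sum_comp (MulAut.conj (x : G)).toEquiv
    (fun t => j t * B (t⁻¹ * ((x : G) * s * (x : G)⁻¹)))]
  refine Finset.sum_congr rfl fun t _ => ?_
  change _ = j (x * t * (x : G)⁻¹) * B ((x * t * (x : G)⁻¹)⁻¹ * ((x : G) * s * (x : G)⁻¹))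
  have e : ((x : G) * t * (x : G)⁻¹)⁻¹ * ((x : G) * s * (x : G)⁻¹) =
      x * (t⁻¹ * s) * (x : G)⁻¹ := by group
  rw [e, hB x x.2]

/-- the orthogonality -/
theorem ori_core {ℓ : ℕ} [Fact ℓ.Prime] (M : Ideal (integralClosure ℤ ℂ)) [M.IsMaximal]
    (hM : (ℓ : integralClosure ℤ ℂ) ∈ M) {z u : G} (hz : El ℓ z) (hu : El ℓ u)
    {c b : G → FF M} (hc : Ix (Cu z) c) (hb : Ix (Cu u) b) {J : G → ℂ}
    (hJs : ∀ g, g ∉ Cu z → J g = 0) (hJr : ∀ s : Cu z, ¬ Reg ℓ s → J s = 0)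
    (hJm : mulF J (H75.ext0 (Cu z) (eh M (fun t : Cu z => c t))) = J)
    (hcon : ∀ x : G, x * u * x⁻¹ = z → mulF c (H75.cj x b) = 0) :
    ∑ᶠ χ ∈ Irr G, (∑ᶠ g, J g * χ (z * g)) * starRingEnd ℂ (gv M (Cu u) u b χ) = 0 := by
  classical
  have := Fintype.ofFinite G
  obtain ⟨B', hB'⟩ : ∃ B' : G → ℂ, B' = H75.ext0 (Cu u) (eh M (fun t : Cu u => b t)) :=
    ⟨_, rfl⟩
  have sumext : ∀ (C : Subgroup G) (f : C → ℂ) (h : G → ℂ),
      ∑ᶠ c : C, f c * h c = ∑ g : G, H75.ext0 C f g * h g := by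
    intro C f h
    have := Fintype.ofFinite C
    rw [finsum_eq_sum_of_fintype]
    have h1 : ∀ g : G, H75.ext0 C f g * h g = ∑ c : C, if (c : G) = g then f c * h c else 0 := by
      intro g
      by_cases hg : g ∈ C
      · rw [Finset.sum_eq_single (⟨g, hg⟩ : C)]
        · rw [if_pos rfl, H75.ext0, dif_pos hg]
        · intro c _ hc
          rw [if_neg]
          intro h'
          exact hc (Subtype.ext h')
        · intro h'; exact absurd (Finset.mem_univ _) h'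
      · rw [H75.ext0, dif_neg hg, zero_mul, Finset.sum_eq_zero]
        intro c _
        rw [if_neg]
        intro h'
        exact hg (h' ▸ c.2)
    rw [Finset.sum_congr rfl (fun g _ => h1 g), Finset.sum_comm]
    refine Finset.sum_congr rfl fun c _ => ?_
    simp
  have hreg : ∀ g, J g ≠ 0 → g ∈ Cu z ∧ Reg ℓ g := by
    intro g hg
    by_cases h : g ∈ Cu z
    · refine ⟨h, ?_⟩
      by_contra hcon
      exact hg (hJr ⟨g, h⟩ (fun hr => hcon (T3.H62.reg_coe hr)))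
    · exact absurd (hJs g h) hg
  have hreg' : ∀ g, B' g ≠ 0 → g ∈ Cu u ∧ Reg ℓ g := by
    intro g hg
    rw [hB'] at hg
    by_cases h : g ∈ Cu u
    · refine ⟨h, ?_⟩
      have := Fintype.ofFinite (Cu u)
      by_contra hcon
      apply hg
      rw [H75.ext0, dif_pos h]
      exact H25.eh_sing T3.H62.wbo_ ℓ M hM _ hb.idem ⟨g, h⟩ (fun hr => hcon (T3.H62.reg_coe hr))
    · exact absurd (H75.ext0_supp _ _ g h) hg
  -- the values
  have e1 : ∀ χ : G → ℂ, (∑ᶠ g, J g * χ (z * g)) = chv (fun g => J (z⁻¹ * g)) χ := by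
    intro χ
    change (∑ᶠ g, J g * χ (z * g)) = ∑ᶠ g, J (z⁻¹ * g) * χ g
    rw [finsum_eq_sum_of_fintype, finsum_eq_sum_of_fintype,
      ← Equiv.sum_comp (Equiv.mulLeft z) (fun g => J (z⁻¹ * g) * χ g)]
    refine Finset.sum_congr rfl fun g _ => ?_
    simp only [Equiv.coe_mulLeft, inv_mul_cancel_left]
  have e2 : ∀ χ ∈ Irr G, starRingEnd ℂ (gv M (Cu u) u b χ) =
      chv (fun g => B' (u * g)) χ := by
    intro χ hχ
    change starRingEnd ℂ (∑ᶠ c : Cu u, eh M (fun t : Cu u => b t) c * χ (u * c)) =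
      ∑ᶠ g, B' (u * g) * χ g
    have := Fintype.ofFinite (Cu u)
    rw [finsum_eq_sum_of_fintype, map_sum, ← Equiv.sum_comp (Equiv.inv (Cu u))]
    have e3 : ∀ c : Cu u, starRingEnd ℂ (eh M (fun t : Cu u => b t) ((Equiv.inv (Cu u)) c) *
        χ (u * (((Equiv.inv (Cu u)) c : Cu u) : G))) =
        eh M (fun t : Cu u => b t) c * χ (u⁻¹ * c) := by
      intro c
      rw [map_mul, H10.eh_conj, H94.irr_star hχ]
      have e4 : (u * (((Equiv.inv (Cu u)) c : Cu u) : G))⁻¹ = u⁻¹ * c := by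
        have h1 : ((((Equiv.inv (Cu u)) c : Cu u) : G)) = (c : G)⁻¹ := rfl
        rw [h1, mul_inv_rev, inv_inv]
        exact ((T3.H62.comm_Cu c.2).inv_right).eq
      have e5 : ((Equiv.inv (Cu u)) c)⁻¹ = c := by
        change (c⁻¹)⁻¹ = c
        rw [inv_inv]
      rw [e4, e5]
    rw [Finset.sum_congr rfl (fun c _ => e3 c), ← finsum_eq_sum_of_fintype,
      sumext (Cu u) (eh M (fun t : Cu u => b t)) (fun g => χ (u⁻¹ * g)),
      finsum_eq_sum_of_fintype,
      ← Equiv.sum_comp (Equiv.mulLeft u⁻¹) (fun g => B' (u * g) * χ g), hB']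
    refine Finset.sum_congr rfl fun g _ => ?_
    simp only [Equiv.coe_mulLeft, mul_inv_cancel_left]
  have e6 : ∑ᶠ χ ∈ Irr G, (∑ᶠ g, J g * χ (z * g)) * starRingEnd ℂ (gv M (Cu u) u b χ) =
      ∑ᶠ χ ∈ Irr G, chv (fun g => J (z⁻¹ * g)) χ * chv (fun g => B' (u * g)) χ := by
    refine finsum_mem_congr rfl fun χ hχ => ?_
    rw [e1, e2 χ hχ]
  rw [e6, Pool.Agent.PP.KF.trc]
  -- parts
  obtain ⟨N, -, hN⟩ := H27.prt ℓ G
  refine finsum_eq_zero_of_forall_eq_zero fun x => ?_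
  by_cases hx : x * u * x⁻¹ = z
  · have h0 := hcon x hx
    let φ := T3.H62.cjE hx
    have hcx : ∀ w, w ∈ Cu z ↔ x⁻¹ * w * x ∈ Cu u := by
      intro w
      constructor
      · intro hw
        exact (φ.symm ⟨w, hw⟩).2
      · intro hw
        have h1 := (φ ⟨x⁻¹ * w * x, hw⟩).2
        change x * (x⁻¹ * w * x) * x⁻¹ ∈ Cu z at h1
        have h2 : x * (x⁻¹ * w * x) * x⁻¹ = w := by group
        rwa [h2] at h1
    have hB0 : mulF J (H75.cj x B') = 0 := by
      obtain ⟨B, hB⟩ : ∃ B : G → ℂ, B = H75.ext0 (Cu z) (eh M (fun t : Cu z => c t)) := ⟨_, rfl⟩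
      have hB1 : mulF B (H75.cj x B') = 0 := by
        have hs1 : ∀ w, w ∉ Cu z → B w = 0 := by
          rw [hB]; exact H75.ext0_supp _ _
        have hs2 : ∀ w, w ∉ Cu z → H75.cj x B' w = 0 := by
          intro w hw
          change B' (x⁻¹ * w * x) = 0
          rw [hB']
          apply H75.ext0_supp
          intro h
          exact hw ((hcx w).2 h)
        apply eq_of_res (mulF_supp (Cu z) hs1 hs2) (fun _ _ => rfl)
        rw [mulF_res (Cu z) _ hs1]
        have h1 : (fun t : Cu z => B t) = eh M (fun t : Cu z => c t) := by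
          rw [hB]
          exact funext (H75.ext0_apply _ _)
        have h2 : (fun t : Cu z => H75.cj x B' t) = eh M (fun t : Cu z => H75.cj x b t) := by
          funext t
          have h3 := T3.H62.eh_equiv (M := M) φ hb.idem.1 (φ.symm t)
          rw [φ.apply_symm_apply] at h3
          have h4 : (fun y : Cu z => b ((φ.symm y : Cu u) : G)) =
              fun t : Cu z => H75.cj x b t := rfl
          rw [h4] at h3
          rw [h3]
          change B' (x⁻¹ * (t : G) * x) = _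
          rw [hB']
          exact H75.ext0_apply (Cu u) _ (φ.symm t)
        rw [h1, h2]
        have h5 : IsIdem (fun t : Cu z => H75.cj x b t) := by
          refine ⟨?_, ?_⟩
          · intro w y
            change b (x⁻¹ * ((y : G) * w * (y : G)⁻¹) * x) = b (x⁻¹ * w * x)
            have h6 := hb.idem.1 (φ.symm w) (φ.symm y)
            have h7 : ((φ.symm y * φ.symm w * (φ.symm y)⁻¹ : Cu u) : G) =
                x⁻¹ * ((y : G) * w * (y : G)⁻¹) * x := by
              rw [← map_inv, ← map_mul, ← map_mul]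
              rfl
            change b ((φ.symm y * φ.symm w * (φ.symm y)⁻¹ : Cu u) : G) = b (x⁻¹ * w * x) at h6
            rw [h7] at h6
            exact h6
          · have hs3 : ∀ w, w ∉ Cu z → H75.cj x b w = 0 := by
              intro w hw
              change b (x⁻¹ * w * x) = 0
              apply hb.supp
              intro h
              exact hw ((hcx w).2 h)
            rw [← mulF_res (Cu z) (H75.cj x b) hs3, ← cj_mulF, hb.mul]
        have h6 : mulF (fun t : Cu z => c t) (fun t : Cu z => H75.cj x b t) = 0 := by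
          rw [← mulF_res (Cu z) (H75.cj x b) hc.supp, h0]
          rfl
        exact T3.H62.eh_orth hc.idem h5 h6
      rw [← hB] at hJm
      rw [← hJm, H20.mulF_assoc, hB1, mulF_zero_right]
    have h1 := congrFun hB0 1
    change (∑ᶠ t, J t * B' (x⁻¹ * (t⁻¹ * 1) * x)) = 0 at h1
    rw [finsum_eq_sum_of_fintype] at h1 ⊢
    rw [← h1, ← Equiv.sum_comp (Equiv.mulLeft z)
      (fun g => J (z⁻¹ * g) * B' (u * (x⁻¹ * g⁻¹ * x)))]
    refine Finset.sum_congr rfl fun g _ => ?_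
    simp only [Equiv.coe_mulLeft, inv_mul_cancel_left, mul_one]
    by_cases hg : J g = 0
    · rw [hg, zero_mul, zero_mul]
    · congr 2
      have h2 : Commute g z := T3.H62.comm_Cu (hreg g hg).1
      have h3 : u = x⁻¹ * z * x := by rw [← hx]; group
      rw [h3, h2.symm.eq, mul_inv_rev]
      group
  · refine finsum_eq_zero_of_forall_eq_zero fun g => ?_
    by_contra hne
    have h1 : J (z⁻¹ * g) ≠ 0 := left_ne_zero_of_mul hne
    have h2 : B' (u * (x⁻¹ * g⁻¹ * x)) ≠ 0 := right_ne_zero_of_mul hne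
    obtain ⟨s, hs⟩ : ∃ s, s = z⁻¹ * g := ⟨_, rfl⟩
    obtain ⟨s', hs'⟩ : ∃ s', s' = u * (x⁻¹ * g⁻¹ * x) := ⟨_, rfl⟩
    rw [← hs] at h1
    rw [← hs'] at h2
    obtain ⟨hsC, hsR⟩ := hreg s h1
    obtain ⟨hsC', hsR'⟩ := hreg' s' h2
    have hg : g = z * s := by rw [hs]; group
    have h3 : x⁻¹ * (s⁻¹ * z⁻¹) * x = s' * u⁻¹ := by
      have h4 : Commute s' u⁻¹ := (T3.H62.comm_Cu hsC').inv_right
      rw [h4.eq, hs', hg, mul_inv_rev]
      group
    have hsi : Reg ℓ s⁻¹ := by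
      unfold Reg at hsR ⊢
      rwa [orderOf_inv]
    have hinv : ∀ {y : G}, El ℓ y → ∃ n : ℕ, (y⁻¹) ^ ℓ ^ n = 1 := by
      rintro y ⟨n, hn⟩
      exact ⟨n, by rw [inv_pow, hn, inv_one]⟩
    have k1 : (s⁻¹ * z⁻¹) ^ N = s⁻¹ :=
      hN s⁻¹ z⁻¹ (T3.H62.comm_Cu hsC).inv_inv hsi (hinv hz)
    have k2 : (s' * u⁻¹) ^ N = s' :=
      hN s' u⁻¹ (T3.H62.comm_Cu hsC').inv_right hsR' (hinv hu)
    have h5 : x⁻¹ * s⁻¹ * x = s' := by
      rw [← k2, ← h3]
      have h6 : x⁻¹ * (s⁻¹ * z⁻¹) * x = x⁻¹ * (s⁻¹ * z⁻¹) * (x⁻¹)⁻¹ := by group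
      rw [h6, conj_pow, k1]
      group
    apply hx
    have h7 : x⁻¹ * (s⁻¹ * z⁻¹) * x = (x⁻¹ * s⁻¹ * x) * (x⁻¹ * z⁻¹ * x) := by group
    rw [h7, h5] at h3
    have h8 : x⁻¹ * z⁻¹ * x = u⁻¹ := mul_left_cancel h3
    have h9 : u = x⁻¹ * z * x := by
      have h10 := congrArg (·⁻¹) h8
      simp only [inv_inv, mul_inv_rev] at h10
      rw [← h10]
      group
    rw [h9]
    group

end core

/-- row ORI -/
theorem ori (hLCL : LclStmt) (hPRJ : PrjStmt) (hLOC : T3.LocStmt) (hFUS : T3.FusStmt) :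
    OriStmt := by
  intro ℓ _ M _ hM G _ _ e V γ b d c ε hD i hi u hu z hz hne
  classical
  have hF : GoodF ℓ (FF M) := H50.fld ℓ Fact.out M hM
  have hL := hD.ld
  obtain ⟨bz, hbz⟩ := (hLOC ℓ (FF M) hF G e V γ hL z hz).1
  obtain ⟨j, hj, hjs, -, hjm, hjv⟩ := hLCL ℓ M hM G e V γ hL i hi z hz bz hbz
  have hlcu := hD.lc u hu
  have hEl : ∀ v ∈ V, El ℓ v := by
    intro v hv
    obtain ⟨n, hn⟩ := hL.tp.pg ⟨v, hv⟩
    exact ⟨n, congrArg (fun v : V => (v : G)) hn⟩
  have hBc : ∀ x ∈ Cu z, ∀ s, H75.ext0 (Cu z) (eh M (fun t : Cu z => bz t)) (x * s * x⁻¹) =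
      H75.ext0 (Cu z) (eh M (fun t : Cu z => bz t)) s := by
    intro x hx s
    have := Fintype.ofFinite (Cu z)
    by_cases hs : s ∈ Cu z
    · have h1 := KF.H25.eh_cl (M := M) (fun t : Cu z => bz t) ⟨s, hs⟩ ⟨x, hx⟩
      have h2 := H75.ext0_apply (Cu z) (eh M (fun t : Cu z => bz t)) ⟨s, hs⟩
      have h3 := H75.ext0_apply (Cu z) (eh M (fun t : Cu z => bz t))
        ((⟨x, hx⟩ : Cu z) * ⟨s, hs⟩ * (⟨x, hx⟩ : Cu z)⁻¹)
      rw [h1, ← h2] at h3
      exact h3
    · rw [H75.ext0_supp _ _ _ hs, H75.ext0_supp]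
      intro h
      exact hs ((mem_conj_Cu ⟨x, hx⟩ s).1 h)
  have hjm' : mulF j (H75.ext0 (Cu z) (eh M (fun t : Cu z => bz t))) = j := hjm
  have hres : ∀ th : Cu z → ℂ, (∀ x y, th (y * x * y⁻¹) = th x) → (∀ x, Reg ℓ x → th x = 0) →
      ∑ᶠ h : Cu z, j h * th h = 0 := by
    intro th h1 h2
    have h3 : mulF (fun t : Cu z => j t) (fun t : Cu z => j t) = fun t : Cu z => j t := by
      rw [← mulF_res (Cu z) j hjs, hj.id]
    exact hPRJ ℓ M hM (Cu z) (fun t : Cu z => j t) (fun g => hj.rm g) h3 th h1 h2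
  have key := ori_core (G := G) M hM (hEl z hz) (hEl u hu.1) hbz.blk.ix hlcu.blk.ix
    (J := avj z j) (avj_supp hjs) (fun s hs => avj_sing hres s hs) (avj_mul hBc hjm') (by
      intro x hx
      rcases hbz.blk.dich (T3.H49.bx_cj hx hlcu.blk) with h | h
      · exfalso
        obtain ⟨t, ht, htu⟩ := hFUS ℓ M hM G e V γ hL z hz u hu.1 bz (b u) hbz hlcu x hx h.symm
        exact hne t ht htu
      · exact h)
  have h1 : ∀ χ ∈ Irr G, fv i z χ * starRingEnd ℂ (vv M b d u χ) =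
      (∑ᶠ g, avj z j g * χ (z * g)) * starRingEnd ℂ (gv M (Cu u) u (b u) χ) * (d u : ℂ)⁻¹ := by
    intro χ hχ
    have hcl : ∀ x y, χ (y * x * y⁻¹) = χ x := fun x y => irr_conj hχ x y
    rw [hjv χ hcl, avj_val hcl]
    unfold vv fv
    rw [map_div₀, Complex.conj_natCast, div_eq_mul_inv, mul_assoc]
  rw [finsum_mem_congr rfl h1]
  have hfin : (Irr G).Finite := T3.H49.irr_fin G
  rw [finsum_mem_eq_finite_toFinset_sum _ hfin, ← Finset.sum_mul,
    ← finsum_mem_eq_finite_toFinset_sum _ hfin, key, zero_mul]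

end Pool.Agent.PP.T8.H8
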